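import Mathlib

set_option autoImplicit false

namespace Pool.Agent.Results.MP_cd30d4_co.Nonneg

open Finset

lemma step (a : ℝ) (s n : ℕ) :
    ∑ k ∈ range (n + 2), ((n + 1).choose k : ℝ) * ((if s + 1 ≤ k then 1 else 0) * (-a) ^ (n + 1 - k))
      = (1 - a) * ∑ k ∈ range (n + 1),
          (n.choose k : ℝ) * ((if s + 1 ≤ k then 1 else 0) * (-a) ^ (n - k))
        + (n.choose s : ℝ) * (-a) ^ (n - s) := by
  rw [Finset.sum_choose_succ_mul (fun i j => (if s + 1 ≤ i then (1 : ℝ) else 0) * (-a) ^ j) n]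
  have h1 : (n.choose s : ℝ) * (-a) ^ (n - s)
      = ∑ k ∈ range (n + 1), if k = s then (n.choose k : ℝ) * (-a) ^ (n - k) else 0 := by
    rw [sum_ite_eq']
    split_ifs with h
    · rfl
    · rw [Nat.choose_eq_zero_of_lt (by simpa using h)]; simp
  rw [h1, mul_sum, ← sum_add_distrib, ← sum_add_distrib]
  refine sum_congr rfl fun k hk => ?_
  have hk' : n + 1 - k = (n - k) + 1 := by have := mem_range.1 hk; omega
  rw [hk', pow_succ]
  rcases lt_trichotomy k s with h | h | h
  · rw [if_neg (by omega), if_neg (by omega), if_neg (by omega)]; ring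
  · rw [if_neg (by omega), if_pos (by omega), if_pos h]; ring
  · rw [if_pos (by omega), if_pos (by omega), if_neg (by omega)]; ring

lemma main (s : ℕ) (d : ℕ → ℝ) (hd0 : d s = 0)
    (hd : ∀ n, d (n + 1) = (1 - 1 / (s + 2)) * d n + (n.choose s : ℝ) * (-(1 / (s + 2))) ^ (n - s))
    (m : ℕ) : 0 ≤ d (s + m) ∧ 0 ≤ d (s + m + 1) := by
  induction m with
  | zero => simp [hd s, hd0]
  | succ m ih =>
    refine ⟨ih.2, ?_⟩
    have h1 := hd (s + m)
    have h2 := hd (s + m + 1)
    have e1 : s + m - s = m := by omega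
    have e2 : s + m + 1 - s = m + 1 := by omega
    rw [e1] at h1
    rw [e2, pow_succ] at h2
    have h3 : ((s + m).choose s : ℝ) * (s + m + 1) = ((s + m + 1).choose s : ℝ) * (m + 1) := by
      have := Nat.choose_mul_succ_eq (s + m) s
      rw [e2] at this
      exact_mod_cast this
    set a : ℝ := 1 / (s + 2) with ha
    have ha0 : 0 < a := by positivity
    have ha1 : a * (s + 2) = 1 := by rw [ha]; field_simp
    have hs : (0 : ℝ) ≤ s := by positivity
    have hm : (0 : ℝ) ≤ m := by positivity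
    have h4 : (m + 1) * d (s + m + 1 + 1) = ((m + 1) * (1 - a) - a * (s + m + 1)) * d (s + m + 1)
        + a * (1 - a) * (s + m + 1) * d (s + m) := by
      rw [h2]
      linear_combination (-(a * (s + m + 1))) * (-h1) + (a * (-a) ^ m) * h3
    have h5 : (m + 1) * (1 - a) - a * (s + m + 1) = a * (m * s) := by
      linear_combination (-(m + 1 : ℝ)) * ha1
    have h6 : 0 ≤ 1 - a := by nlinarith
    have h7 : 0 ≤ (m + 1) * d (s + m + 1 + 1) := by
      rw [h4, h5]
      have := ih.1
      have := ih.2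
      positivity
    exact (mul_nonneg_iff_of_pos_left (by positivity)).1 h7

theorem result : ∀ r : ℕ, 1 ≤ r → ∀ n : ℕ,
    0 ≤ PowerSeries.coeff n
      (PowerSeries.rescale (-(1 / ((r : ℝ) + 1))) (PowerSeries.exp ℝ) *
        (PowerSeries.exp ℝ - ∑ k ∈ Finset.range r,
          PowerSeries.C (1 / (k.factorial : ℝ)) * PowerSeries.X ^ k)) := by
  intro r hr n
  obtain ⟨s, rfl⟩ : ∃ s, r = s + 1 := ⟨r - 1, by omega⟩
  set a : ℝ := 1 / (s + 2) with ha
  have ha' : (1 / (((s + 1 : ℕ) : ℝ) + 1)) = a := by rw [ha]; push_cast; ring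
  rw [ha']
  let d : ℕ → ℝ := fun n => ∑ k ∈ range (n + 1),
    (n.choose k : ℝ) * ((if s + 1 ≤ k then 1 else 0) * (-a) ^ (n - k))
  have hz : ∀ n ≤ s, d n = 0 := by
    intro n hn
    refine sum_eq_zero fun k hk => ?_
    have := mem_range.1 hk
    rw [if_neg (by omega)]; simp
  have hpos : 0 ≤ d n := by
    rcases le_or_gt n s with h | h
    · rw [hz n h]
    · obtain ⟨m, rfl⟩ : ∃ m, n = s + m := ⟨n - s, by omega⟩
      exact (main s d (hz s le_rfl) (fun n => step a s n) m).1
  have hB : ∀ k, PowerSeries.coeff k (PowerSeries.exp ℝ - ∑ k ∈ Finset.range (s + 1),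
      PowerSeries.C (1 / (k.factorial : ℝ)) * PowerSeries.X ^ k)
      = (if s + 1 ≤ k then 1 else 0) / (k.factorial : ℝ) := by
    intro k
    simp only [map_sub, map_sum, PowerSeries.coeff_C_mul, PowerSeries.coeff_X_pow,
      PowerSeries.coeff_exp, mul_ite, mul_one, mul_zero, sum_ite_eq, mem_range]
    by_cases h : k < s + 1
    · rw [if_pos h, if_neg (by omega)]; simp
    · rw [if_neg h, if_pos (by omega)]; simp
  rw [mul_comm, PowerSeries.coeff_mul, Nat.sum_antidiagonal_eq_sum_range_succ_mk]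
  simp only [hB, PowerSeries.coeff_rescale, PowerSeries.coeff_exp]
  have e : ∑ k ∈ range n.succ, (if s + 1 ≤ k then (1 : ℝ) else 0) / (k.factorial : ℝ) *
      ((-a) ^ (n - k) * algebraMap ℚ ℝ (1 / ((n - k).factorial : ℚ))) = d n / n.factorial := by
    rw [sum_div]
    refine sum_congr rfl fun k hk => ?_
    have hk' : k ≤ n := by have := mem_range.1 hk; omega
    rw [Nat.cast_choose ℝ hk']
    simp only [eq_ratCast, one_div, Rat.cast_inv, Rat.cast_natCast]
    have : (n.factorial : ℝ) ≠ 0 := by positivity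
    field_simp
  rw [e]
  positivity

end Pool.Agent.Results.MP_cd30d4_co.Nonneg
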